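import Pool.Agent.H62.GN.Rct

/-!
# Foreign chains on the natural boxes of a given chain, recentred

`rct_for`: the recentred labels of another chain on the natural boxes of a chain which has the
property `Pool.FRN.Relv`: the natural boxes are small in the coordinates of the other chain, and the
label of the target is a label on these boxes, with the gain `2 ^ (-v)` of the radius.
`for_lab`: a chain label of the target, on any list of coordinates of the chain, with any sides, of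
radius `2 ^ (-a₀)`, is a label on the natural boxes of radius `2 ^ (-a)`, with the precision
`g' i + (a - a₀)` up to a loss. For small `a - a₀` this is `Pool.FRN.foreign`.
-/

set_option autoImplicit false

namespace Pool.RCT

open Finset Real MvPolynomial
open Pool.Agent.H49.Ent Pool.Agent.H32.Dense Pool.STK Pool.KA Pool.KSAT Pool.K2S Pool.PB Pool.S6C
open Pool.GEN Pool.CHT
open Pool.FLF (Fam.sub)
open Pool.FRN (Relv)

variable {m J : ℕ}

/-- The chain of coordinates of another chain. -/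
theorem dep_range {c c' : ℕ → Fin m} {r i : ℕ} (hc : ∀ l < i, ∃ j < r, c' l = c j)
    {P : MvPolynomial (Option (Fin m)) ℝ} (h : DepC c' i P) : DepC c r P :=
  Pool.FRN.DepC.of_list h hc

/-- The polynomials of the lines, on shorter windows. -/
def coarse {F : Fam m J} (k : ℕ) (H : LnT F → MvPolynomial (Option (Fin m)) ℝ) :
    LnT F → MvPolynomial (Option (Fin m)) ℝ := fun s => H (s.1, s.2.1, s.2.2 / 2 ^ k)

theorem coarse_at {F : Fam m J} (H : LnT F → MvPolynomial (Option (Fin m)) ℝ) {w₀ w : ℕ}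
    (h : w₀ ≤ w) (hw : w ≤ J) (ω : F.Ω) :
    coarse (w - w₀) H (slam F w ω) = H (slam F w₀ ω) := by
  rw [slam_coarse F h hw ω]
  rfl

/-- The relation of a coordinate and of its label. -/
theorem eval_rel (k : Fin m) (P : MvPolynomial (Option (Fin m)) ℝ) (b : Option (Fin m) → ℝ) :
    eval b (X (some k) - P) = b (some k) - eval b P := by
  rw [map_sub, eval_X]

theorem deg_rel {k : Fin m} {P : MvPolynomial (Option (Fin m)) ℝ} {D : ℕ} (hD : 1 ≤ D)
    (h : P.totalDegree ≤ D) : (X (some k) - P).totalDegree ≤ D := by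
  refine (totalDegree_sub _ _).trans (max_le ?_ h)
  rw [totalDegree_X]
  exact hD

theorem dep_rel {c : ℕ → Fin m} {r : ℕ} {k : Fin m} {P : MvPolynomial (Option (Fin m)) ℝ}
    (hk : ∃ j < r, k = c j) (h : DepC c r P) : DepC c r (X (some k) - P) := by
  intro b b' hn hb
  obtain ⟨j, hj, rfl⟩ := hk
  rw [eval_rel, eval_rel, h b b' hn hb, hb j hj]

/-- **The recentred labels of another chain.** -/
theorem rct_for (m r₀ K' : ℕ) : ∃ (C₁ : ℝ) (c₀ : ℕ), 1 ≤ C₁ ∧
    ∀ {J : ℕ} {F : Fam m J} {c c' : ℕ → Fin m} {r i a w a₀ w₀ e' h u v D : ℕ} {q g' : ℕ → ℕ}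
      {A : F.Ω → Prop} {κ η θ : ℝ} {G G' : PtT F → ℕ → MvPolynomial (Option (Fin m)) ℝ}
      {H' : LnT F → ℕ → MvPolynomial (Option (Fin m)) ℝ} (hA : 0 < Pe F.p A),
      i ≤ r₀ → Set.InjOn c' (Set.Iio (i + 1)) → (∀ l < i, ∃ j < r, c' l = c j) → w₀ ≤ a₀ →
      a₀ + v ≤ a → w₀ ≤ w → w ≤ J → max K' 1 ≤ D → 0 ≤ η → η ≤ 1 → κ ≤ (1 - η) ^ i / 2 →
      (∀ l < i + 1, e' + g' l + v + c₀ ≤ J) → 0 ≤ θ → (Fam.sub F A hA).Tm θ →
      C₁ * (θ + 1) ≤ ((J : ℝ) - w₀) * Real.log 2 → Real.exp (C₁ * (θ + 1)) ≤ 2 ^ u →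
      i * (u + h) + 1 ≤ v → Relv F c r a w q A G D h κ η →
      ChOK F c' (i + 1) (fun _ => K') a₀ w₀ e' g' A G' H' →
      (∀ ω, A ω → ∀ l < i + 1,
        |F.x ω (c' l) - eval (bt F ω) (gR c' G' (ptr F J ω) l)| ≤ 1 / 2 ^ (g' l + v)) ∧
      ∃ B : F.Ω → Prop, Sub B A ∧ (1 - η) ^ i / 2 * Pe F.p A ≤ Pe F.p B ∧
        ∀ ω, B ω → ∀ b : Option (Fin m) → ℝ, NBx c (G (ptr F J ω)) q a (F.t ω) r b →
          (∀ l < i, |b (some (c' l)) - eval b (gR c' G' (ptr F J ω) l)| ≤
            1 / 2 ^ (g' l + (v - i * (u + h)))) ∧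
          |eval b (gR c' G' (ptr F J ω) i) - eval b (hR c' H' (slam F w₀ ω) i)| ≤
            2 ^ u / 2 ^ (g' i + (v - i * (u + h))) := by
  classical
  choose C₁ c₀ hC₁ hev using fun i : ℕ => rct_ev m (i + 1) (fun _ => max K' 1)
    (fun _ => le_max_right _ _)
  obtain ⟨C, hC⟩ : ∃ C, C = ∑ i ∈ range (r₀ + 1), C₁ i + 1 := ⟨_, rfl⟩
  have hCi : ∀ i ≤ r₀, C₁ i ≤ C := by
    intro i hi
    have h1 := Finset.single_le_sum (f := C₁) (fun j _ => le_trans zero_le_one (hC₁ j))
      (mem_range.2 (Nat.lt_succ_of_le hi))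
    rw [hC]
    linarith
  have hC1 : 1 ≤ C := by
    rw [hC]
    have : 0 ≤ ∑ i ∈ range (r₀ + 1), C₁ i :=
      Finset.sum_nonneg fun j _ => le_trans zero_le_one (hC₁ j)
    linarith
  refine ⟨C, (range (r₀ + 1)).sup c₀, hC1, ?_⟩
  intro J F c c' r i a w a₀ w₀ e' h u v D q g' A κ η θ G G' H' hA hir hc hcc hwa hav hww hwJ hD
    hη hη1 hκ hJ hθ hTm hN hu hiv hrel hL₀
  have hL : ChOK F c' (i + 1) (fun _ => max K' 1) a₀ w₀ e' g' A G' H' :=
    hL₀.mono le_rfl (fun _ => le_max_left _ _) le_rfl le_rfl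
  have hw₀J : w₀ ≤ J := hww.trans hwJ
  have hθ1 : 0 ≤ θ + 1 := by linarith
  have hci : c₀ i ≤ (range (r₀ + 1)).sup c₀ :=
    Finset.le_sup (f := c₀) (mem_range.2 (Nat.lt_succ_of_le hir))
  obtain ⟨hown, B₀, hB₀, hP₀, hagr⟩ := hev i J F c' a₀ w₀ e' v u g' A G' H' θ hA hc hwa hw₀J
    (fun l hl => by have := hJ l hl; omega) hθ hTm
    ((mul_le_mul_of_nonneg_right (hCi i hir) hθ1).trans hN)
    ((Real.exp_le_exp.2 (mul_le_mul_of_nonneg_right (hCi i hir) hθ1)).trans hu) hL
  refine ⟨hown, ?_⟩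
  have hPA : 0 ≤ Pe F.p A := hA.le
  have h1η : 0 ≤ 1 - η := by linarith
  -- the induction along the list
  have key : ∀ j ≤ i, ∃ B : F.Ω → Prop, Sub B B₀ ∧ (1 - η) ^ j / 2 * Pe F.p A ≤ Pe F.p B ∧
      ∀ ω, B ω → ∀ b : Option (Fin m) → ℝ, NBx c (G (ptr F J ω)) q a (F.t ω) r b →
        ∀ l < j, |b (some (c' l)) - eval b (gR c' G' (ptr F J ω) l)| ≤
          1 / 2 ^ (g' l + (v - j * (u + h))) := by
    intro j
    induction j with
    | zero =>
      intro _
      refine ⟨B₀, fun _ h => h, by rw [pow_zero]; linarith [hP₀], fun ω _ b _ l hl =>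
        absurd hl (Nat.not_lt_zero l)⟩
    | succ j ih =>
      intro hj
      obtain ⟨B, hBB, hBP, hB⟩ := ih (by omega)
      have hji : j * (u + h) + (u + h) ≤ i * (u + h) := by
        calc j * (u + h) + (u + h) = (j + 1) * (u + h) := by ring
          _ ≤ i * (u + h) := Nat.mul_le_mul_right _ hj
      have hs1 : 1 ≤ v - j * (u + h) := by omega
      have hsv : v - j * (u + h) ≤ v := Nat.sub_le _ _
      have hsub : Sub B A := fun ω hω => hB₀ ω (hBB ω hω)
      have hbig : κ * Pe F.p A ≤ Pe F.p B := by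
        refine le_trans (mul_le_mul_of_nonneg_right (hκ.trans ?_) hPA) hBP
        have h1 : (1 - η) ^ i ≤ (1 - η) ^ j :=
          pow_le_pow_of_le_one h1η (by linarith) (by omega)
        linarith
      obtain ⟨B', hB', hBP', hBb⟩ := hrel B hsub hbig
        (fun y => X (some (c' j)) - gR c' G' y j)
        (fun s => X (some (c' j)) - coarse (w - w₀) (fun s => hR c' H' s j) s)
        (g' j + (v - j * (u + h)) - u)
        (fun y => deg_rel ((le_max_right _ _).trans hD) (deg_gR ((hL.degG y j).trans hD)))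
        (fun s => deg_rel ((le_max_right _ _).trans hD)
          ((deg_hR (le_max_right _ _) (hL.degH _ j)).trans hD))
        (fun y => dep_rel (hcc j (by omega)) (dep_range (fun l hl => hcc l (by omega))
          (dep_gR (hL.depG y j))))
        (fun s => dep_rel (hcc j (by omega)) (dep_range (fun l hl => hcc l (by omega))
          (dep_hR (hL.depH _ j)))) (fun ω hω => by
        have hAω := hsub ω hω
        refine ⟨?_, fun b hb => ?_⟩
        · rw [eval_rel]
          refine (hown ω hAω j (by omega)).trans (inv_mono ?_)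
          omega
        · rw [eval_rel, eval_rel]
          show |b (some (c' j)) - eval b (gR c' G' (ptr F J ω) j) - (b (some (c' j)) -
            eval b (coarse (w - w₀) (fun s => hR c' H' s j) (slam F w ω)))| ≤ _
          rw [coarse_at _ hww hwJ]
          have h1 := hagr ω (hBB ω hω) j (by omega) (v - j * (u + h)) hs1 hsv b
            ⟨hb.1.trans (inv_mono (by omega)), fun l hl => hB ω hω b hb l hl⟩
          have h2 : (2 : ℝ) ^ u / 2 ^ (g' j + (v - j * (u + h))) =
              1 / 2 ^ (g' j + (v - j * (u + h)) - u) := by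
            rw [div_eq_div_iff (by positivity) (by positivity), one_mul, ← pow_add]
            congr 1
            omega
          rw [h2] at h1
          have e1 : b (some (c' j)) - eval b (gR c' G' (ptr F J ω) j) - (b (some (c' j)) -
              eval b (hR c' H' (slam F w₀ ω) j)) = -(eval b (gR c' G' (ptr F J ω) j) -
                eval b (hR c' H' (slam F w₀ ω) j)) := by ring
          rw [e1, abs_neg]
          exact h1)
      refine ⟨B', fun ω hω => hBB ω (hB' ω hω), ?_, fun ω hω b hb l hl => ?_⟩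
      · refine le_trans ?_ hBP'
        have h1 := mul_le_mul_of_nonneg_left hBP h1η
        calc (1 - η) ^ (j + 1) / 2 * Pe F.p A = (1 - η) * ((1 - η) ^ j / 2 * Pe F.p A) := by ring
          _ ≤ _ := h1
      · rcases Nat.lt_or_ge l j with h1 | h1
        · refine (hB ω (hB' ω hω) b hb l h1).trans (inv_mono ?_)
          have : j * (u + h) ≤ (j + 1) * (u + h) := Nat.mul_le_mul_right _ (by omega)
          omega
        · have : l = j := by omega
          subst this
          have h2 := hBb ω hω b hb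
          rw [eval_rel] at h2
          refine h2.trans (le_of_eq ?_)
          have h3 : (l + 1) * (u + h) = l * (u + h) + (u + h) := by ring
          rw [div_eq_div_iff (by positivity) (by positivity), one_mul, ← pow_add]
          congr 1
          omega
  obtain ⟨B, hBB, hBP, hB⟩ := key i le_rfl
  refine ⟨B, fun ω hω => hB₀ ω (hBB ω hω), hBP, fun ω hω b hb => ⟨hB ω hω b hb, ?_⟩⟩
  exact hagr ω (hBB ω hω) i (by omega) (v - i * (u + h)) (by omega) (Nat.sub_le _ _) b
    ⟨hb.1.trans (inv_mono (by omega)), fun l hl => hB ω hω b hb l hl⟩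

/-- **A chain label of the target on the natural boxes of a given chain.** -/
theorem for_lab (m r₀ K' : ℕ) : ∃ (C₁ : ℝ) (c₀ L : ℕ), 1 ≤ C₁ ∧
    ∀ {J : ℕ} {F : Fam m J} {c c' : ℕ → Fin m} {r i a w a₀ w₀ e' h u D : ℕ} {q g' : ℕ → ℕ}
      {A : F.Ω → Prop} {κ η θ : ℝ} {G G' : PtT F → ℕ → MvPolynomial (Option (Fin m)) ℝ}
      {H' : LnT F → ℕ → MvPolynomial (Option (Fin m)) ℝ} (hA : 0 < Pe F.p A),
      i ≤ r₀ → Set.InjOn c' (Set.Iio (i + 1)) → (∀ l < i, ∃ j < r, c' l = c j) → w₀ ≤ a₀ →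
      a₀ ≤ a → w₀ ≤ w → w ≤ J → max K' 1 ≤ D → 0 ≤ η → η ≤ 1 → κ ≤ (1 - η) ^ i / 2 →
      (∀ l < i + 1, e' + g' l + (a - a₀) + c₀ ≤ J) → 0 ≤ θ → (Fam.sub F A hA).Tm θ →
      C₁ * (θ + 1) ≤ ((J : ℝ) - w₀) * Real.log 2 → Real.exp (C₁ * (θ + 1)) ≤ 2 ^ u →
      Relv F c r a w q A G D h κ η → ChOK F c' (i + 1) (fun _ => K') a₀ w₀ e' g' A G' H' →
      ∃ (Gt : PtT F → MvPolynomial (Option (Fin m)) ℝ)
        (Ht : LnT F → MvPolynomial (Option (Fin m)) ℝ),
        (∀ y, (Gt y).totalDegree ≤ max K' 1) ∧ (∀ s, (Ht s).totalDegree ≤ max K' 1) ∧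
        (∀ y, DepC c' i (Gt y)) ∧ (∀ s, DepC c' i (Ht s)) ∧
        (∀ ω, A ω → |F.x ω (c' i) - eval (bt F ω) (Gt (ptr F J ω))| ≤
          2 ^ (L * (h + u + 1)) / 2 ^ (g' i + (a - a₀))) ∧
        ∃ B : F.Ω → Prop, Sub B A ∧ (1 - η) ^ i / 2 * Pe F.p A ≤ Pe F.p B ∧
          ∀ ω, B ω → ∀ b : Option (Fin m) → ℝ, NBx c (G (ptr F J ω)) q a (F.t ω) r b →
            |eval b (Gt (ptr F J ω)) - eval b (Ht (slam F w ω))| ≤
              2 ^ (L * (h + u + 1)) / 2 ^ (g' i + (a - a₀)) := by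
  obtain ⟨C₁, c₀, hC₁, hr⟩ := rct_for m r₀ K'
  obtain ⟨L₁, hf⟩ := Pool.FRN.foreign r₀ K'
  refine ⟨C₁, c₀, L₁ + r₀ + 1, hC₁, ?_⟩
  intro J F c c' r i a w a₀ w₀ e' h u D q g' A κ η θ G G' H' hA hir hc hcc hwa haa hww hwJ hD
    hη hη1 hκ hJ hθ hTm hN hu hrel hL
  have hPA : 0 ≤ Pe F.p A := hA.le
  have hiu : i * (u + h) ≤ r₀ * (h + u + 1) := Nat.mul_le_mul hir (by omega)
  have hL1 : L₁ * (h + 1) ≤ L₁ * (h + u + 1) := Nat.mul_le_mul_left _ (by omega)
  have e0 : (L₁ + r₀ + 1) * (h + u + 1) = L₁ * (h + u + 1) + r₀ * (h + u + 1) + (h + u + 1) := by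
    ring
  rcases Nat.lt_or_ge (i * (u + h)) (a - a₀) with hv | hv
  · obtain ⟨hown, B, hBA, hBP, hB⟩ := hr (v := a - a₀) hA hir hc hcc hwa (by omega) hww hwJ hD hη
      hη1 hκ hJ hθ hTm hN hu hv hrel hL
    have hL' : ChOK F c' (i + 1) (fun _ => max K' 1) a₀ w₀ e' g' A G' H' :=
      hL.mono le_rfl (fun _ => le_max_left _ _) le_rfl le_rfl
    refine ⟨fun y => gR c' G' y i, coarse (w - w₀) (fun s => hR c' H' s i),
      fun y => deg_gR (hL'.degG y i), fun s => deg_hR (le_max_right _ _) (hL'.degH _ i),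
      fun y => dep_gR (hL.depG y i), fun s => dep_hR (hL.depH _ i), fun ω hω => ?_, B, hBA, hBP,
      fun ω hω b hb => ?_⟩
    · refine (hown ω hω i (by omega)).trans ?_
      exact div_le_div_of_nonneg_right (one_le_pow₀ (by norm_num)) (by positivity)
    · rw [coarse_at _ hww hwJ]
      refine (hB ω hω b hb).2.trans ?_
      rw [div_le_div_iff₀ (by positivity) (by positivity), ← pow_add, ← pow_add]
      refine pow_le_pow_right₀ (by norm_num) ?_
      omega
  · obtain ⟨B, hBA, hBP, hB⟩ := hf hir (hc.mono fun l hl => by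
      have h0 : l < i := hl
      show l < i + 1
      omega) hcc haa hww hwJ hD hη hη1 (hκ.trans (by
        have : 0 ≤ (1 - η) ^ i := pow_nonneg (by linarith) _
        linarith)) hrel hL
    refine ⟨fun y => G' y i, coarse (w - w₀) (fun s => H' s i),
      fun y => (hL.degG y i).trans (le_max_left _ _), fun s => (hL.degH _ i).trans (le_max_left _ _),
      fun y => hL.depG y i, fun s => hL.depH _ i, fun ω hω => ?_, B, hBA, ?_, fun ω hω b hb => ?_⟩
    · refine (hL.pos ω hω i (by omega)).trans ?_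
      rw [div_le_div_iff₀ (by positivity) (by positivity), one_mul, ← pow_add]
      refine pow_le_pow_right₀ (by norm_num) ?_
      omega
    · refine le_trans (mul_le_mul_of_nonneg_right ?_ hPA) hBP
      have : 0 ≤ (1 - η) ^ i := pow_nonneg (by linarith) _
      linarith
    · rw [coarse_at _ hww hwJ]
      refine (hB ω hω b hb).2.trans ?_
      rw [div_le_div_iff₀ (by positivity) (by positivity), ← pow_add, ← pow_add]
      refine pow_le_pow_right₀ (by norm_num) ?_
      omega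

end Pool.RCT
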