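import Pool.Agent.H2.GEN.ChS
import Pool.Agent.H9.GEN.For

/-!
# Recentred chains

`gR`, `hR`: the labels of a chain, with constants such that the visible polynomials pass through the
rounded point and the polynomials of the lines have no own height. In a chain on natural boxes of
radius `2 ^ (-a)` the recentred labels agree up to `2 ^ (u - (g i + s))` on the natural boxes of
radius `2 ^ (-(a + s))` and sides `2 ^ (-(g l + s))`, for all `s` at once (`rct_ev`).
-/

set_option autoImplicit false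

namespace Pool.RCT

open Finset Real MvPolynomial
open Pool.Agent.H49.Ent Pool.Agent.H32.Dense Pool.STK Pool.KA Pool.KSAT Pool.K2S Pool.PB Pool.S6C
open Pool.GEN Pool.CHT
open Pool.FLF (Fam.sub)
open Pool.PB.Trl (rt rt_mem t_rt)

variable {m J : ℕ}

/-- The recentred visible polynomials. -/
noncomputable def gR {F : Fam m J} (c : ℕ → Fin m)
    (G : PtT F → ℕ → MvPolynomial (Option (Fin m)) ℝ) (y : PtT F) (i : ℕ) :
    MvPolynomial (Option (Fin m)) ℝ := Gno (c i) J J (fun y => G y i) y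

/-- The recentred polynomials of the lines. -/
noncomputable def hR {F : Fam m J} (c : ℕ → Fin m)
    (H : LnT F → ℕ → MvPolynomial (Option (Fin m)) ℝ) (s : LnT F) (i : ℕ) :
    MvPolynomial (Option (Fin m)) ℝ := Hno (c i) (fun s => H s i) s

/-- The visible constant. -/
noncomputable def dR {F : Fam m J} (c : ℕ → Fin m)
    (G : PtT F → ℕ → MvPolynomial (Option (Fin m)) ℝ) (y : PtT F) (i : ℕ) : ℝ :=
  (y.1 (c i) : ℝ) / 2 ^ J - eval (bho J J y) (G y i)

theorem eval_gR {F : Fam m J} (c : ℕ → Fin m) (G : PtT F → ℕ → MvPolynomial (Option (Fin m)) ℝ)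
    (y : PtT F) (i : ℕ) (b : Option (Fin m) → ℝ) :
    eval b (gR c G y i) = eval b (G y i) + dR c G y i := by
  unfold gR Gno dR
  rw [map_add, eval_C]

theorem deg_gR {F : Fam m J} {c : ℕ → Fin m} {G : PtT F → ℕ → MvPolynomial (Option (Fin m)) ℝ}
    {y : PtT F} {i K : ℕ} (h : (G y i).totalDegree ≤ K) : (gR c G y i).totalDegree ≤ K := by
  unfold gR Gno
  refine (totalDegree_add _ _).trans (max_le h ?_)
  rw [totalDegree_C]
  exact Nat.zero_le _

theorem deg_hR {F : Fam m J} {c : ℕ → Fin m} {H : LnT F → ℕ → MvPolynomial (Option (Fin m)) ℝ}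
    {s : LnT F} {i K : ℕ} (hK : 1 ≤ K) (h : (H s i).totalDegree ≤ K) :
    (hR c H s i).totalDegree ≤ K := deg_Hno _ _ _ hK h

theorem dep_gR {F : Fam m J} {c : ℕ → Fin m} {G : PtT F → ℕ → MvPolynomial (Option (Fin m)) ℝ}
    {y : PtT F} {i : ℕ} (h : DepC c i (G y i)) : DepC c i (gR c G y i) := by
  intro b b' hn hb
  rw [eval_gR, eval_gR, h b b' hn hb]

theorem dep_hR {F : Fam m J} {c : ℕ → Fin m} {H : LnT F → ℕ → MvPolynomial (Option (Fin m)) ℝ}
    {s : LnT F} {i : ℕ} (h : DepC c i (H s i)) : DepC c i (hR c H s i) := by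
  intro b b' hn hb
  show eval b (Hno (c i) (fun s => H s i) s) = eval b' (Hno (c i) (fun s => H s i) s)
  rw [eval_Hno, eval_Hno, h b b' hn hb, hn]

/-- The growth from a natural box to the box of four times the sides; the sides may be large. -/
theorem nbx_dblr (r : ℕ) (K : ℕ → ℕ) : ∃ c₀ : ℕ, ∀ {m : ℕ} {c : ℕ → Fin m} {i : ℕ}
    {G : ℕ → MvPolynomial (Option (Fin m)) ℝ} {Q : MvPolynomial (Option (Fin m)) ℝ}
    {g : ℕ → ℕ} {a : ℕ} {t M : ℝ}, i < r → Set.InjOn c (Set.Iio i) →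
    (∀ l, (G l).totalDegree ≤ K l) → (∀ l, DepC c l (G l)) → DepC c i Q →
    Q.totalDegree ≤ K i → 0 ≤ M →
    (∀ b, NBx c G g a t i b → |eval b Q| ≤ M) → ∀ b : Option (Fin m) → ℝ,
      |b none - t| ≤ 1 / 2 ^ a → (∀ l < i, |b (some (c l)) - eval b (G l)| ≤ 4 / 2 ^ g l) →
        |eval b Q| ≤ 2 ^ c₀ * M := by
  obtain ⟨D, hD⟩ : ∃ D, D = ∑ i ∈ range r, ∑ j ∈ range i, K i * dgp K j i := ⟨_, rfl⟩
  obtain ⟨C, hC, h⟩ := Pool.FRN.nbr_grow D r
  obtain ⟨c₀, hc₀⟩ := pow_unbounded_of_one_lt (C * 2 ^ (2 * D)) (one_lt_two (α := ℝ))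
  refine ⟨c₀, ?_⟩
  intro m c i G Q g a t M hi hc hdeg hdep hQ hQd hM0 hM b hb0 hb
  have hDi : ∀ j < i, K i * dgp K j i ≤ D := by
    intro j hj
    rw [hD]
    calc K i * dgp K j i ≤ ∑ j ∈ range i, K i * dgp K j i :=
          Finset.single_le_sum (f := fun j => K i * dgp K j i) (fun _ _ => Nat.zero_le _)
            (mem_range.2 hj)
      _ ≤ _ := Finset.single_le_sum (f := fun i => ∑ j ∈ range i, K i * dgp K j i)
            (fun _ _ => Nat.zero_le _) (mem_range.2 hi)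
  have hDs : ∑ j ∈ range i, K i * dgp K j i ≤ D := by
    rw [hD]
    exact Finset.single_le_sum (f := fun i => ∑ j ∈ range i, K i * dgp K j i)
      (fun _ _ => Nat.zero_le _) (mem_range.2 hi)
  have h1 := h (K := K) (σ := fun l => 1 / 2 ^ g l) (n := fun _ => 2) (α := 1 / 2 ^ a)
    (D₀ := K i) hi.le hc hdeg hdep hQ hQd hDi hM0 (fun b hb => hM b hb) b
    ⟨hb0, fun l hl => (hb l hl).trans (le_of_eq (by
      show (4 : ℝ) / 2 ^ g l = 2 ^ 2 * (1 / 2 ^ g l)
      ring))⟩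
  refine h1.trans (mul_le_mul_of_nonneg_right ?_ hM0)
  refine le_trans ?_ hc₀.le
  refine mul_le_mul_of_nonneg_left (pow_le_pow_right₀ (by norm_num) ?_) (by linarith)
  calc ∑ j ∈ range i, 2 * (K i * dgp K j i) = 2 * ∑ j ∈ range i, K i * dgp K j i := by
        rw [Finset.mul_sum]
    _ ≤ 2 * D := Nat.mul_le_mul_left 2 hDs

/-- **The rounding**: the natural boxes and the labels at points of the same cell of the resolution
`J`. -/
theorem near_cellr (r : ℕ) (K : ℕ → ℕ) : ∃ c₀ : ℕ, ∀ {m : ℕ} {c : ℕ → Fin m}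
    {G : ℕ → MvPolynomial (Option (Fin m)) ℝ} {g : ℕ → ℕ} {a e J v : ℕ}
    {x : Option (Fin m) → ℝ}, Set.InjOn c (Set.Iio r) →
    (∀ l, (G l).totalDegree ≤ K l) → (∀ l, DepC c l (G l)) →
    (∀ l < r, |x (some (c l)) - eval x (G l)| ≤ 1 / 2 ^ g l) →
    (∀ i < r, ∀ b, NBx c G g a (x none) i b → ∀ l < i,
      |eval b (pderiv (some (c l)) (G i))| ≤ 2 ^ (e + nlp g l i)) →
    (∀ i < r, e + g i + v + c₀ ≤ J) →
    ∀ i ≤ r, ∀ y : Option (Fin m) → ℝ, y none = x none →
      (∀ l < i, |y (some (c l)) - x (some (c l))| ≤ 1 / 2 ^ J) →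
      (∀ l < i, |y (some (c l)) - eval y (G l)| ≤ 4 / 2 ^ g l) ∧
        (i < r → |eval y (G i) - eval x (G i)| ≤ 1 / 4 / 2 ^ (g i + v)) := by
  obtain ⟨c₁, h₁⟩ := nbx_dblr r K
  obtain ⟨c₂, hc₂⟩ := pow_unbounded_of_one_lt (4 * (r : ℝ)) (one_lt_two (α := ℝ))
  refine ⟨c₁ + c₂ + 2, ?_⟩
  intro m c G g a e J v x hc hdeg hdep hpos hlip hJ i
  induction i with
  | zero =>
    intro _ y hy _
    refine ⟨fun l hl => absurd hl (Nat.not_lt_zero l), fun h0 => ?_⟩
    have h1 : eval y (G 0) = eval x (G 0) := hdep 0 _ _ hy fun l hl => absurd hl (Nat.not_lt_zero l)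
    rw [h1, sub_self, abs_zero]
    positivity
  | succ i ih =>
    intro hi y hy hyx
    have hir : i < r := hi
    have ih' := ih hir.le
    have hbox : ∀ l < i + 1, |y (some (c l)) - eval y (G l)| ≤ 4 / 2 ^ g l := by
      intro l hl
      obtain ⟨k1, k2⟩ := ih' y hy fun l hl => hyx l (by omega)
      rcases Nat.lt_or_ge l i with h2 | h2
      · exact k1 l h2
      · have : l = i := by omega
        subst this
        have h3 := k2 hir
        have h4 := hpos l hir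
        have h5 := hyx l (by omega)
        have h6 : (1 : ℝ) / 2 ^ J ≤ 1 / 2 ^ g l := inv_mono (by
          have := hJ l hir
          omega)
        have h7 : (1 : ℝ) / 4 / 2 ^ (g l + v) ≤ 1 / 2 ^ g l := by
          rw [div_div]
          refine one_div_le_one_div_of_le (by positivity) ?_
          have : (2 : ℝ) ^ g l ≤ 2 ^ (g l + v) := pow_le_pow_right₀ (by norm_num) (by omega)
          have h0 : (0 : ℝ) < 2 ^ (g l + v) := by positivity
          linarith
        have h8 : (4 : ℝ) / 2 ^ g l = 4 * (1 / 2 ^ g l) := by ring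
        have h9 : (0 : ℝ) ≤ 1 / 2 ^ g l := by positivity
        rw [h8]
        rw [abs_le] at h3 h4 h5 ⊢
        constructor <;> linarith [h3.1, h3.2, h4.1, h4.2, h5.1, h5.2]
    refine ⟨hbox, fun hi1 => ?_⟩
    -- the gradient of the label `i + 1` near the point
    have hsup : e + (Finset.range (i + 2)).sup g + v + (c₁ + c₂ + 2) ≤ J := by
      have h2 : (Finset.range (i + 2)).sup g ≤ J - (e + v + (c₁ + c₂ + 2)) := by
        refine Finset.sup_le fun j hj => ?_
        have := hJ j (by rw [mem_range] at hj; omega)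
        omega
      have h3 := hJ (i + 1) hi1
      omega
    have hnlp : ∀ l < i + 1, g (i + 1) + nlp g l (i + 1) ≤ (Finset.range (i + 2)).sup g := by
      intro l hl
      unfold nlp
      have h2 : (Finset.Icc l (i + 1)).sup g ≤ (Finset.range (i + 2)).sup g :=
        Finset.sup_mono fun j hj => by
          rw [Finset.mem_Icc] at hj
          rw [mem_range]
          omega
      have h3 : g (i + 1) ≤ (Finset.Icc l (i + 1)).sup g :=
        Finset.le_sup (f := g) (Finset.mem_Icc.2 ⟨hl.le, le_rfl⟩)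
      omega
    obtain ⟨L, hL⟩ : ∃ L : ℝ, L = 2 ^ (c₁ + e + (Finset.range (i + 2)).sup g) / 2 ^ g (i + 1) :=
      ⟨_, rfl⟩
    have hL0 : 0 ≤ L := by rw [hL]; positivity
    have h2 := mv_chain (hdep (i + 1)) (b := x) (b' := y) hL0
      (by positivity : (0 : ℝ) ≤ 1 / 2 ^ J) hy hyx (by
      intro z hz hzx l hl
      have hzb : ∀ l < i + 1, |z (some (c l)) - eval z (G l)| ≤ 4 / 2 ^ g l := by
        intro l hl
        obtain ⟨k1, k2⟩ := ih' z hz fun l hl => hzx l (by omega)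
        rcases Nat.lt_or_ge l i with h2 | h2
        · exact k1 l h2
        · have : l = i := by omega
          subst this
          have h3 := k2 hir
          have h4 := hpos l hir
          have h5 := hzx l (by omega)
          have h6 : (1 : ℝ) / 2 ^ J ≤ 1 / 2 ^ g l := inv_mono (by
            have := hJ l hir
            omega)
          have h7 : (1 : ℝ) / 4 / 2 ^ (g l + v) ≤ 1 / 2 ^ g l := by
            rw [div_div]
            refine one_div_le_one_div_of_le (by positivity) ?_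
            have : (2 : ℝ) ^ g l ≤ 2 ^ (g l + v) := pow_le_pow_right₀ (by norm_num) (by omega)
            have h0 : (0 : ℝ) < 2 ^ (g l + v) := by positivity
            linarith
          have h8 : (4 : ℝ) / 2 ^ g l = 4 * (1 / 2 ^ g l) := by ring
          have h9 : (0 : ℝ) ≤ 1 / 2 ^ g l := by positivity
          rw [h8]
          rw [abs_le] at h3 h4 h5 ⊢
          constructor <;> linarith [h3.1, h3.2, h4.1, h4.2, h5.1, h5.2]
      have h3 := h₁ (a := a) (t := x none) (M := 2 ^ (e + nlp g l (i + 1))) hi1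
        (hc.mono fun j hj => lt_trans hj hi1) hdeg hdep (DepC.pderiv (hdep (i + 1)) l)
        (totalDegree_pdσ (hdeg (i + 1)) _) (by positivity)
        (fun b hb => hlip (i + 1) hi1 b hb l hl) z (by
          rw [hz, sub_self, abs_zero]; positivity) hzb
      refine h3.trans ?_
      rw [hL, le_div_iff₀ (by positivity), ← pow_add, ← pow_add]
      refine pow_le_pow_right₀ (by norm_num) ?_
      have := hnlp l hl
      omega)
    refine h2.trans ?_
    have h3 : ((i + 1 : ℕ) : ℝ) ≤ r := by exact_mod_cast hi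
    have h4 : (r : ℝ) ≤ 2 ^ c₂ / 4 := by linarith
    have h5 : L * (((i + 1 : ℕ) : ℝ) * (1 / 2 ^ J)) ≤
        2 ^ (c₁ + e + (Finset.range (i + 2)).sup g) / 2 ^ g (i + 1) * (2 ^ c₂ / 4 * (1 / 2 ^ J)) := by
      rw [hL]
      refine mul_le_mul_of_nonneg_left ?_ (by positivity)
      exact mul_le_mul_of_nonneg_right (h3.trans h4) (by positivity)
    refine h5.trans ?_
    have h6 : (2 : ℝ) ^ (c₁ + e + (Finset.range (i + 2)).sup g) / 2 ^ g (i + 1) *
        (2 ^ c₂ / 4 * (1 / 2 ^ J)) =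
        1 / 4 * (2 ^ (c₁ + e + (Finset.range (i + 2)).sup g + c₂) / (2 ^ g (i + 1) * 2 ^ J)) := by
      rw [pow_add (2 : ℝ) (c₁ + e + (Finset.range (i + 2)).sup g) c₂]
      field_simp
    rw [h6, div_eq_mul_one_div (1 / 4 : ℝ)]
    refine mul_le_mul_of_nonneg_left ?_ (by norm_num)
    rw [div_le_div_iff₀ (by positivity) (by positivity), one_mul, ← pow_add, ← pow_add]
    refine pow_le_pow_right₀ (by norm_num) ?_
    omega

/-- **The recentred chain.** -/
theorem rct_ev (m r : ℕ) (K : ℕ → ℕ) (hK : ∀ i, 1 ≤ K i) : ∃ (C₁ : ℝ) (c₀ : ℕ), 1 ≤ C₁ ∧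
    ∀ (J : ℕ) (F : Fam m J) (c : ℕ → Fin m) (a w e v u : ℕ) (g : ℕ → ℕ) (A : F.Ω → Prop)
      (G : PtT F → ℕ → MvPolynomial (Option (Fin m)) ℝ)
      (H : LnT F → ℕ → MvPolynomial (Option (Fin m)) ℝ) (θ : ℝ) (hA : 0 < Pe F.p A),
      Set.InjOn c (Set.Iio r) → w ≤ a → w ≤ J →
      (∀ i < r, e + g i + v + c₀ ≤ J) → 0 ≤ θ → (Fam.sub F A hA).Tm θ →
      C₁ * (θ + 1) ≤ ((J : ℝ) - w) * Real.log 2 → Real.exp (C₁ * (θ + 1)) ≤ 2 ^ u →
      ChOK F c r K a w e g A G H →
      (∀ ω, A ω → ∀ i < r,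
        |F.x ω (c i) - eval (bt F ω) (gR c G (ptr F J ω) i)| ≤ 1 / 2 ^ (g i + v)) ∧
      ∃ B : F.Ω → Prop, Sub B A ∧ Pe F.p A / 2 ≤ Pe F.p B ∧
        ∀ ω, B ω → ∀ i < r, ∀ s : ℕ, 1 ≤ s → s ≤ v → ∀ b : Option (Fin m) → ℝ,
          NBx c (gR c G (ptr F J ω)) (fun l => g l + s) (a + s) (F.t ω) i b →
          |eval b (gR c G (ptr F J ω) i) - eval b (hR c H (slam F w ω) i)| ≤
            2 ^ u / 2 ^ (g i + s) := by
  classical
  obtain ⟨Km, hKm⟩ : ∃ Km, Km = (range r).sup K := ⟨_, rfl⟩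
  have hKi : ∀ i < r, K i ≤ Km := fun i hi => by
    rw [hKm]; exact Finset.le_sup (f := K) (mem_range.2 hi)
  obtain ⟨D, hD⟩ : ∃ D, D = ∑ i ∈ range r, K i * dga K i := ⟨_, rfl⟩
  have hDi : ∀ i < r, K i * dga K i ≤ D := fun i hi => by
    rw [hD]
    exact Finset.single_le_sum (f := fun i => K i * dga K i) (fun _ _ => Nat.zero_le _)
      (mem_range.2 hi)
  obtain ⟨C, hC, hat⟩ := slope_at D
  obtain ⟨C₀, hC₀, hrem⟩ := Pool.PZ.Zrt.rem_ev (m := m) (2 * Km)
  obtain ⟨c₁, h₁⟩ := nbx_dblr r K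
  obtain ⟨c₂, h₂⟩ := near_cellr r K
  obtain ⟨R, hR⟩ : ∃ R : ℝ, R = 4 * r + 1 := ⟨_, rfl⟩
  have hR1 : 1 ≤ R := by
    rw [hR]
    have : (0 : ℝ) ≤ r := Nat.cast_nonneg r
    linarith
  obtain ⟨D', hD'⟩ : ∃ D' : ℝ, D' = 2 * C * (2 ^ c₁ + R) + 1 := ⟨_, rfl⟩
  have hc₁0 : (0 : ℝ) < 2 ^ c₁ := by positivity
  have hD'1 : 1 ≤ D' := by
    rw [hD']
    have : 0 ≤ 2 * C * (2 ^ c₁ + R) := by positivity
    linarith
  have hlD : 0 ≤ Real.log D' := Real.log_nonneg hD'1
  refine ⟨C₀ + Real.log D' + D', c₁ + c₂ + 2, by linarith, ?_⟩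
  intro J F c a w e v u g A G H θ hA hc hwa hwJ hJ hθ hTm hN hu hL
  obtain ⟨E, hE⟩ : ∃ E : ℝ, E = Real.exp (C₀ * (θ + 1)) := ⟨_, rfl⟩
  have hE1 : 1 ≤ E := by
    rw [hE, Real.one_le_exp_iff]
    have : 0 ≤ θ + 1 := by linarith only [hθ]
    nlinarith only [hC₀, hθ]
  have hDE : D' * E ≤ 2 ^ u := by
    refine le_trans ?_ hu
    have h1 : Real.exp ((C₀ + Real.log D' + D') * (θ + 1)) =
        E * Real.exp ((Real.log D' + D') * (θ + 1)) := by
      rw [hE, ← Real.exp_add]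
      congr 1
      ring
    rw [h1, mul_comm D']
    refine mul_le_mul_of_nonneg_left ?_ (by linarith only [hE1])
    calc D' = Real.exp (Real.log D') := (Real.exp_log (by linarith only [hD'1])).symm
      _ ≤ _ := Real.exp_le_exp.2 (by nlinarith only [hθ, hlD, hD'1])
  -- the heights of the lines
  obtain ⟨q, hq⟩ : ∃ q : LnT F → ℕ → Polynomial ℝ, q = fun s i =>
      qso (c i) (fun s => H s i) s w := ⟨_, rfl⟩
  have hqd : ∀ s, ∀ i < r, (q s i).natDegree ≤ Km := by
    intro s i hi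
    rw [hq]
    exact deg_qso _ _ _ _ ((hK i).trans (hKi i hi)) ((hL.degH s i).trans (hKi i hi))
  obtain ⟨Q, hQ⟩ : ∃ Q : LnT F → Polynomial ℝ, Q = fun s =>
      ∑ i ∈ range r, (Polynomial.C ((2 : ℝ) ^ g i) * q s i) ^ 2 := ⟨_, rfl⟩
  have hQe : ∀ s τ, (Q s).eval τ = ∑ i ∈ range r, (2 ^ g i * (q s i).eval τ) ^ 2 := by
    intro s τ
    rw [hQ]
    simp only [Polynomial.eval_finsetSum, Polynomial.eval_pow, Polynomial.eval_mul,
      Polynomial.eval_C]
  have hQd : ∀ s, (Q s).natDegree ≤ 2 * Km := by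
    intro s
    rw [hQ]
    refine Polynomial.natDegree_sum_le_of_forall_le _ _ fun i hi => ?_
    refine Polynomial.natDegree_pow_le.trans (Nat.mul_le_mul_left 2 ?_)
    exact (Polynomial.natDegree_C_mul_le _ _).trans (hqd s i (mem_range.1 hi))
  have hown : ∀ ω, A ω → ∀ i < r, |(q (slam F w ω) i).eval (rt F w ω)| ≤ 2 / 2 ^ g i := by
    intro ω hω i hi
    rw [hq]
    show |(qso (c i) (fun s => H s i) (slam F w ω) w).eval (rt F w ω)| ≤ 2 / 2 ^ g i
    rw [eval_qso, ← t_rt F hwJ, eso_at]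
    have h1 := hL.pos ω hω i hi
    have h3 := hL.agr ω hω i hi (bt F ω) (hL.self hω hi.le)
    have h4 : (2 : ℝ) / 2 ^ g i = 1 / 2 ^ g i + 1 / 2 ^ g i := by ring
    rw [h4]
    rw [abs_le] at h1 h3 ⊢
    constructor <;> linarith only [h1.1, h1.2, h3.1, h3.2]
  -- the visible constants
  obtain ⟨δ, hδ⟩ : ∃ δ : PtT F → ℕ → ℝ, δ = dR c G := ⟨_, rfl⟩
  have hGn : ∀ y i b, eval b (gR c G y i) = eval b (G y i) + δ y i := by
    intro y i b
    rw [hδ, eval_gR]
  have hcell : ∀ ω, A ω → ∀ i < r, |eval (bho J J (ptr F J ω)) (G (ptr F J ω) i) -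
      eval (bt F ω) (G (ptr F J ω) i)| ≤ 1 / 4 / 2 ^ (g i + v) := by
    intro ω hω i hi
    refine ((h₂ (x := bt F ω) (a := a) (e := e) (J := J) (v := v) hc (hL.degG _) (hL.depG _)
      (fun l hl => hL.pos ω hω l hl) (fun i hi b hb l hl => hL.lip ω hω i hi b hb l hl)
      (fun i hi => ?_) i hi.le (bho J J (ptr F J ω)) rfl fun l _ => ?_).2 hi)
    · have := hJ i hi
      omega
    · exact Pool.PB.Trl.x_near F J ω (c l)
  have hρ : ∀ ω, A ω → ∀ i < r, |F.x ω (c i) - eval (bt F ω) (G (ptr F J ω) i) -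
      δ (ptr F J ω) i| ≤ 1 / 2 / 2 ^ (g i + v) := by
    intro ω hω i hi
    have h3 := hcell ω hω i hi
    have h4 := Pool.PB.Trl.x_near F J ω (c i)
    have h5 : δ (ptr F J ω) i = ((F.X J ω (c i) : ℤ) : ℝ) / 2 ^ J -
        eval (bho J J (ptr F J ω)) (G (ptr F J ω) i) := by
      rw [hδ]
      rfl
    rw [h5]
    have h6 : (1 : ℝ) / 2 ^ J ≤ 1 / 4 / 2 ^ (g i + v) := by
      rw [div_div]
      refine one_div_le_one_div_of_le (by positivity) ?_
      rw [show (4 : ℝ) = 2 ^ 2 by norm_num, ← pow_add]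
      refine pow_le_pow_right₀ (by norm_num) ?_
      have := hJ i hi
      omega
    have h7 : (1 : ℝ) / 2 / 2 ^ (g i + v) = 1 / 4 / 2 ^ (g i + v) + 1 / 4 / 2 ^ (g i + v) := by
      ring
    rw [h7]
    rw [abs_le] at h3 h4 ⊢
    constructor <;> linarith only [h3.1, h3.2, h4.1, h4.2, h6]
  refine ⟨fun ω hω i hi => ?_, ?_⟩
  · rw [hGn]
    have h3 := hρ ω hω i hi
    have e1 : F.x ω (c i) - (eval (bt F ω) (G (ptr F J ω) i) + δ (ptr F J ω) i) =
        F.x ω (c i) - eval (bt F ω) (G (ptr F J ω) i) - δ (ptr F J ω) i := by ring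
    rw [e1]
    refine h3.trans ?_
    refine div_le_div_of_nonneg_right (by norm_num) (by positivity)
  obtain ⟨B, hBA, hBP, hB⟩ := hrem J F A hA w Q R θ hwJ hQd (by linarith only [hR1]) hθ hTm (by
      refine le_trans ?_ hN
      refine mul_le_mul_of_nonneg_right ?_ (by linarith only [hθ])
      linarith only [hlD, hD'1]) (fun ω hω => by
      rw [hQe]
      have h1 : ∀ i ∈ range r, (2 ^ g i * (q (slam F w ω) i).eval (rt F w ω)) ^ 2 ≤ 4 := by
        intro i hi
        have h2 := hown ω hω i (mem_range.1 hi)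
        have h3 : |2 ^ g i * (q (slam F w ω) i).eval (rt F w ω)| ≤ 2 := by
          rw [abs_mul, abs_of_pos (by positivity : (0 : ℝ) < 2 ^ g i)]
          rw [le_div_iff₀ (by positivity)] at h2
          linarith only [h2]
        have h4 := abs_le.1 h3
        nlinarith only [h4.1, h4.2]
      have h2 : 0 ≤ ∑ i ∈ range r, (2 ^ g i * (q (slam F w ω) i).eval (rt F w ω)) ^ 2 :=
        Finset.sum_nonneg fun i _ => sq_nonneg _
      rw [abs_of_nonneg h2]
      refine (Finset.sum_le_sum h1).trans ?_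
      rw [Finset.sum_const, card_range, nsmul_eq_mul, hR]
      linarith)
  have hBq : ∀ ω, B ω → ∀ i < r, ∀ τ ∈ Set.Icc (0 : ℝ) 1,
      |(qso (c i) (fun s => H s i) (slam F w ω) w).eval τ| ≤ E * R / 2 ^ g i := by
    intro ω hω i hi τ hτ
    have h1 := hB ω hω τ hτ
    rw [hQe, ← hE] at h1
    have h2 : (2 ^ g i * (q (slam F w ω) i).eval τ) ^ 2 ≤
        ∑ i ∈ range r, (2 ^ g i * (q (slam F w ω) i).eval τ) ^ 2 :=
      Finset.single_le_sum (f := fun i => (2 ^ g i * (q (slam F w ω) i).eval τ) ^ 2)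
        (fun _ _ => sq_nonneg _) (mem_range.2 hi)
    have h3 := h2.trans ((le_abs_self _).trans h1)
    have h4 : 1 ≤ E * R := by nlinarith only [hE1, hR1]
    have h5 : |2 ^ g i * (q (slam F w ω) i).eval τ| ≤ E * R := by
      refine abs_le_of_sq_le_sq (h3.trans ?_) (by linarith only [h4])
      nlinarith only [h4]
    rw [abs_mul, abs_of_pos (by positivity : (0 : ℝ) < 2 ^ g i)] at h5
    rw [le_div_iff₀ (by positivity)]
    have h6 : (qso (c i) (fun s => H s i) (slam F w ω) w) = q (slam F w ω) i := by rw [hq]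
    rw [h6]
    linarith only [h5]
  refine ⟨B, hBA, hBP, fun ω hω i hi s hs1 hsv b hb => ?_⟩
  have hAω := hBA ω hω
  have hcJ : Set.InjOn c (Set.Iio i) := hc.mono fun j hj => lt_trans hj hi
  have hps : (2 : ℝ) ^ s = 2 * 2 ^ (s - 1) := by
    rw [← pow_succ']
    congr 1
    omega
  have l1 : (0 : ℝ) < 2 / 2 ^ s := by positivity
  have l2 : (2 : ℝ) / 2 ^ s ≤ 1 := by
    rw [div_le_one (by positivity), hps]
    have : (1 : ℝ) ≤ 2 ^ (s - 1) := one_le_pow₀ (by norm_num)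
    linarith only [this]
  have k1 : |b none - F.t ω| ≤ 2 / 2 ^ s / 2 ^ a := by
    refine hb.1.trans ?_
    rw [div_div, ← pow_add, add_comm s a]
    exact div_le_div_of_nonneg_right (by norm_num) (by positivity)
  have k2 : ∀ l < i, |(b (some (c l)) - eval b (G (ptr F J ω) l)) -
      (F.x ω (c l) - eval (bt F ω) (G (ptr F J ω) l))| ≤ 2 / 2 ^ s / 2 ^ g l := by
    intro l hl
    have h3 := hb.2 l hl
    simp only at h3
    rw [hGn] at h3
    have h4 := hρ ω hAω l (hl.trans hi)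
    have h5 : (1 : ℝ) / 2 / 2 ^ (g l + v) ≤ 1 / 2 ^ (g l + s) := by
      rw [div_div]
      refine one_div_le_one_div_of_le (by positivity) ?_
      have h6 : (2 : ℝ) ^ (g l + s) ≤ 2 ^ (g l + v) := pow_le_pow_right₀ (by norm_num) (by omega)
      have h7 : (0 : ℝ) < 2 ^ (g l + v) := by positivity
      linarith only [h6, h7]
    have h9 : (2 : ℝ) / 2 ^ s / 2 ^ g l = 1 / 2 ^ (g l + s) + 1 / 2 ^ (g l + s) := by
      rw [div_div, ← pow_add, add_comm s (g l)]
      ring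
    rw [h9]
    have h10 := h4.trans h5
    rw [abs_le] at h3 h10 ⊢
    constructor <;> linarith only [h3.1, h3.2, h10.1, h10.2]
  have h3 := hat F ω (c i) (fun s => H s i) (Γ := G (ptr F J ω)) (Gt := G (ptr F J ω) i)
    (a := a) (w := w) (M := 2 ^ c₁ * (1 / 2 ^ g i)) (S := E * R / 2 ^ g i)
    (ρ := 1 / 2 / 2 ^ (g i + v)) (δ := δ (ptr F J ω) i) b hcJ (hL.degG _) (hL.depG _)
    (hL.depG _ i) (hL.depH _ i) (hL.degG _ i) (hL.degH _ i) (hK i) (hDi i hi) hwa hwJ l1 l2
    (by positivity) (by positivity) (fun b hb hbx => by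
      have h4 := h₁ (Q := G (ptr F J ω) i - H (slam F w ω) i) (M := 1 / 2 ^ g i) hi hcJ
        (hL.degG _) (hL.depG _)
        (fun y y' hn hy => by
          rw [map_sub, map_sub, hL.depG _ i y y' hn hy, hL.depH _ i y y' hn hy])
        ((totalDegree_sub _ _).trans (max_le (hL.degG _ i) (hL.degH _ i))) (by positivity)
        (fun b hb => by rw [map_sub]; exact hL.agr ω hAω i hi b hb) b hb hbx
      rw [map_sub] at h4
      exact h4) (fun l hl => hL.pos ω hAω l (hl.trans hi)) (hBq ω hω i hi) k1 k2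
    (hρ ω hAω i hi)
  rw [hGn]
  refine h3.trans ?_
  have h4 : (0 : ℝ) < 2 ^ (g i + s) := by positivity
  have h5 : (1 : ℝ) / 2 / 2 ^ (g i + v) ≤ 1 / 2 / 2 ^ (g i + s) := by
    refine div_le_div_of_nonneg_left (by norm_num) h4 (pow_le_pow_right₀ (by norm_num) (by omega))
  have h7 : C * (2 ^ c₁ * (1 / 2 ^ g i) + E * R / 2 ^ g i) * (2 / 2 ^ s) +
      1 / 2 / 2 ^ (g i + s) = (2 * C * (2 ^ c₁ + E * R) + 1 / 2) / 2 ^ (g i + s) := by
    rw [pow_add]
    field_simp
  refine (add_le_add_right h5 _).trans ?_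
  rw [h7]
  refine div_le_div_of_nonneg_right ?_ h4.le
  have h10 : 2 * C * (2 ^ c₁ + E * R) + 1 ≤ D' * E := by
    rw [hD']
    have : 2 * C * 2 ^ c₁ ≤ 2 * C * 2 ^ c₁ * E := by
      refine le_mul_of_one_le_right (by positivity) hE1
    nlinarith only [this, hE1]
  linarith only [h10, hDE]

end Pool.RCT
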